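import Pool.Agent.KDD.Stmts

/-!
# KDD, row NCD: iteration without cancellation
-/

set_option autoImplicit false

open Polynomial NumberField H58Q Pool.Agent.SZT Pool.Agent.SZT.B Pool.Agent.KDT Pool.Agent.KDS

namespace Pool.Agent.KDD.H68

theorem ncd : NcdStatement := by
  intro E _ w f n
  induction n with
  | zero =>
    intro u lam L C' _ _ h3 l
    simpa using h3 l
  | succ n ih =>
    intro u lam L C' h1 h2 h3 l
    -- the bound at level `n`
    have hn := h1 n (Nat.lt_succ_self n)
    have hstep : ∀ m, w (u n m) ≤ Real.exp (L n + C' / 4) := by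
      intro m
      obtain ⟨l', hl'⟩ := h2 n (Nat.lt_succ_self n) m
      have hlam : 0 < w (lam n) := w.pos hn.1
      have h4 : w (dup f (u n) l') = w (lam n) * w (u (n + 1) l') := by
        rw [hn.2.1, Pi.smul_apply, smul_eq_mul, map_mul]
      have h5 : w (u n m) ^ 4 ≤ Real.exp (L n + C' / 4) ^ 4 := by
        calc w (u n m) ^ 4 ≤ w (dup f (u n) l') := hl'
          _ = w (lam n) * w (u (n + 1) l') := h4
          _ ≤ w (lam n) * Real.exp (L (n + 1) + C') :=
              mul_le_mul_of_nonneg_left (h3 l') hlam.le
          _ = Real.exp (L n + C' / 4) ^ 4 := by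
              rw [hn.2.2, ← Real.exp_nat_mul]
              nth_rewrite 1 [← Real.exp_log hlam]
              rw [← Real.exp_add]
              congr 1
              push_cast
              ring
      exact le_of_pow_le_pow_left₀ (by norm_num) (Real.exp_pos _).le h5
    have h6 := ih u lam L (C' / 4) (fun a ha => h1 a (ha.trans (Nat.lt_succ_self n)))
      (fun a ha => h2 a (ha.trans (Nat.lt_succ_self n))) hstep l
    have h7 : C' / 4 / 4 ^ n = C' / 4 ^ (n + 1) := by
      rw [div_div, pow_succ, mul_comm (4 : ℝ)]
    rwa [h7] at h6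

end Pool.Agent.KDD.H68
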