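import Pool.Agent.KDD.Stmts
import Pool.Agent.Helper47_SZT.ADD

/-!
# KDD, row TAD: the sum of the positions over a principal divisor is an integer (copy of SZT ADD,
helper47)
-/

set_option autoImplicit false

noncomputable section

open Polynomial NumberField H58Q Pool.Agent.SZT Pool.Agent.SZT.B Pool.Agent.KDT Pool.Agent.KDS
open Pool.Agent.SZT.H47 (laurent count_nz prod_nz grow_congr)

namespace Pool.Agent.KDD.H68

theorem tad (SLO : SZT.B.SloStmt) (PMU : SZT.B.PmuStmt) (EXL : SZT.B.ExlStmt)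
    (NOD : TndStatement) (CHT : TchStatement) (GAU : SZT.B.GauStmt) (IMU : TiuStatement)
    (IMI : TiiStatement) : TadStatement := by
  intro K L _ _ _ _ φ f θ s A B ψ κ hN hs hM hSp hI hκ hnorm
  classical
  obtain ⟨⟨hη0, hη1, hctr⟩, -, -, ⟨hfI, hfM, hfd⟩⟩ := NOD L (f.map φ) θ hN
  obtain ⟨ch1, ch2, ch3⟩ := CHT L (f.map φ) θ s hN hs
  have hηp : 0 < ‖eta θ‖ := norm_pos_iff.mpr hη0
  have hφκ : φ κ ≠ 0 := (map_ne_zero φ).mpr hκ
  -- the equation over `L`
  have hAm : ∀ i, ((A i).map φ).Monic := fun i => (hM i).monic.map φ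
  have hPM : ((A 0).map φ * (A 1).map φ * (A 2).map φ).Monic :=
    ((hAm 0).mul (hAm 1)).mul (hAm 2)
  have hPS : ((A 0).map φ * (A 1).map φ * (A 2).map φ).Splits :=
    ((hSp 0).mul (hSp 1)).mul (hSp 2)
  have heq : (ψ.re.map φ) ^ 2 - (f.map φ) * (ψ.im.map φ) ^ 2
      = C (φ κ) * ((A 0).map φ * (A 1).map φ * (A 2).map φ) := by
    have := congrArg (Polynomial.map φ) hnorm
    simpa only [Polynomial.map_sub, Polynomial.map_pow, Polynomial.map_mul, Polynomial.map_C]
      using this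
  have hodd : Odd (f.map φ).natDegree := by
    rw [hfd]
    decide
  obtain ⟨γ, hγ0, hγ, hγα, hγβ⟩ := GAU L (f.map φ) (ψ.re.map φ) (ψ.im.map φ) _ (φ κ) hfM hodd
    hfI hPM hPS hφκ heq
  have hγp : 0 < ‖γ‖ := norm_pos_iff.mpr hγ0
  have hint : ∀ p : L[X], (∀ i, ‖p.coeff i‖ ≤ ‖γ‖) → PInt (C γ⁻¹ * p) := by
    intro p hp i
    rw [coeff_C_mul, norm_mul, norm_inv, inv_mul_eq_div, div_le_one hγp]
    exact hp i
  have hroot : ∀ i, ∀ a ∈ ((A i).map φ).roots,
      ((B i).map φ).eval a ^ 2 = (f.map φ).eval a := by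
    intro i a ha
    have hd : (A i).map φ ∣ ((B i).map φ) ^ 2 - f.map φ := by
      have := Polynomial.map_dvd φ (hM i).dvd
      simpa only [Polynomial.map_sub, Polynomial.map_pow] using this
    have h0 : ((A i).map φ).eval a = 0 := (mem_roots'.mp ha).2
    have := eval_eq_zero_of_dvd_of_eval_eq_zero hd h0
    rw [eval_sub, eval_pow] at this
    exact sub_eq_zero.mp this
  -- the Laurent series
  obtain ⟨c, hc, hv⟩ := laurent PMU EXL θ s hN.two hη0 hη1 hctr hs.1 (fun X hX => (ch1 X hX).1)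
    _ _ (hint _ hγα) (hint _ hγβ)
  have hv' : ∀ X : L, Ann ‖eta θ‖ X → γ * val c X = evq φ ψ (xx θ X) (yy θ s X) := by
    intro X hX
    rw [hv X hX, evq, eval_mul, eval_mul, eval_C, eval_map, eval_map]
    field_simp
  -- the zeros
  set Z : Multiset L := ∑ i : Fin 3, nz θ s ((A i).map φ) ((B i).map φ) with hZ
  have hZA : ∀ x ∈ Z, Ann ‖eta θ‖ x := by
    intro x hx
    rw [hZ, Multiset.mem_sum] at hx
    obtain ⟨i, -, hx⟩ := hx
    rw [nz, Multiset.mem_map] at hx
    obtain ⟨a, ha, rfl⟩ := hx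
    rw [Multiset.mem_filter] at ha
    exact (ch2 a _ (hroot i a ha.1) ha.2).1
  have hcount : ∀ x : L, Ann ‖eta θ‖ x → ∀ i,
      IGr φ θ s (MI f (A i) (B i)) x ((nz θ s ((A i).map φ) ((B i).map φ)).count x) := by
    intro x hx i
    have hcn := count_nz (f.map φ) θ s ((A i).map φ) ((B i).map φ)
      (fun X hX => ⟨(ch1 X hX).2.2.2.1, (ch1 X hX).2.2.2.2.2.2.2.2.2⟩)
      (fun a y h1 h2 => ⟨(ch2 a y h1 h2).2.1, (ch2 a y h1 h2).2.2.1⟩) (hroot i) x hx
    rw [hcn]
    split_ifs with h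
    · exact IMI K L φ f (A i) (B i) θ s x hN hs hx (hM i) h
    · exact (IMU K L φ f θ s x hN hs hx).2 _
  have hgrow : ∀ x ∈ Z, Grow (val c) x (Z.count x) := by
    intro x hx
    have hxA := hZA x hx
    have hmul := (IMU K L φ f θ s x hN hs hxA).1
    have h012 := hmul _ _ _ _ (hmul _ _ _ _ (hcount x hxA 0) (hcount x hxA 1)) (hcount x hxA 2)
    rw [hI] at h012
    have hψ := h012 ψ (Ideal.mem_span_singleton_self ψ)
    have hcz : Z.count x = (nz θ s ((A 0).map φ) ((B 0).map φ)).count x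
        + (nz θ s ((A 1).map φ) ((B 1).map φ)).count x
        + (nz θ s ((A 2).map φ) ((B 2).map φ)).count x := by
      rw [hZ, Fin.sum_univ_three, Multiset.count_add, Multiset.count_add]
    rw [hcz]
    exact grow_congr hγ0 hηp hxA hψ hv'
  -- the norm relation
  have hprod : ∀ X : L, Ann ‖eta θ‖ X → ‖val c X‖ * ‖val c (eta θ / X)‖ =
      (Z.map fun x => ‖(X - x) * (1 - eta θ / (X * x))‖).prod := by
    intro X hX
    obtain ⟨-, hy2, -, -, hX', hxx, hyy, -, -, -⟩ := ch1 X hX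
    have e1 := hv' X hX
    have e2 := hv' (eta θ / X) hX'
    rw [hxx, hyy] at e2
    rw [evq, ← eval_map, ← eval_map] at e1 e2
    have e3 : (γ * val c X) * (γ * val c (eta θ / X))
        = φ κ * (((A 0).map φ).eval (xx θ X) * ((A 1).map φ).eval (xx θ X)
          * ((A 2).map φ).eval (xx θ X)) := by
      have := congrArg (Polynomial.eval (xx θ X)) heq
      rw [eval_sub, eval_mul, eval_pow, eval_pow, eval_mul, eval_C, eval_mul, eval_mul] at this
      rw [e1, e2, ← this, ← hy2]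
      ring
    have e4 : ∀ i, ‖((A i).map φ).eval (xx θ X)‖
        = (((A i).map φ).roots.map fun a => ‖xx θ X - a‖).prod := by
      intro i
      rw [(hSp i).eval_eq_prod_roots_of_monic (hAm i)]
      have := map_multiset_prod (normHom : L →*₀ ℝ)
        (((A i).map φ).roots.map fun a => xx θ X - a)
      rw [Multiset.map_map] at this
      exact this
    have e5 : ∀ i, (((A i).map φ).roots.map fun a => ‖xx θ X - a‖).prod =
        (((A i).map φ).roots.map fun a => max 1 ‖a‖).prod *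
          ((nz θ s ((A i).map φ) ((B i).map φ)).map
            fun x => ‖(X - x) * (1 - eta θ / (X * x))‖).prod := fun i =>
      prod_nz (f.map φ) θ s _ _ hN.two hctr
        (fun X hX => (ch1 X hX).2.2.2.2.2.2.2.2.2)
        (fun a y h1 h2 => ⟨(ch2 a y h1 h2).1, (ch2 a y h1 h2).2.1⟩) ch3 (hroot i) X hX
    have e6 : (((A 0).map φ * (A 1).map φ * (A 2).map φ).roots.map fun a => max 1 ‖a‖).prod
        = (((A 0).map φ).roots.map fun a => max 1 ‖a‖).prod
          * (((A 1).map φ).roots.map fun a => max 1 ‖a‖).prod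
          * (((A 2).map φ).roots.map fun a => max 1 ‖a‖).prod := by
      rw [roots_mul hPM.ne_zero, roots_mul ((hAm 0).mul (hAm 1)).ne_zero, Multiset.map_add,
        Multiset.map_add, Multiset.prod_add, Multiset.prod_add]
    rw [e6] at hγ
    have e7 := congrArg (fun t : L => ‖t‖) e3
    simp only [norm_mul] at e7
    rw [e4 0, e4 1, e4 2, e5 0, e5 1, e5 2] at e7
    have e8 : (Z.map fun x => ‖(X - x) * (1 - eta θ / (X * x))‖).prod
        = ((nz θ s ((A 0).map φ) ((B 0).map φ)).map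
            fun x => ‖(X - x) * (1 - eta θ / (X * x))‖).prod
          * ((nz θ s ((A 1).map φ) ((B 1).map φ)).map
            fun x => ‖(X - x) * (1 - eta θ / (X * x))‖).prod
          * ((nz θ s ((A 2).map φ) ((B 2).map φ)).map
            fun x => ‖(X - x) * (1 - eta θ / (X * x))‖).prod := by
      rw [hZ, Fin.sum_univ_three, Multiset.map_add, Multiset.map_add, Multiset.prod_add,
        Multiset.prod_add]
    rw [e8]
    have hγ2 : ‖γ‖ ^ 2 ≠ 0 := by positivity
    apply mul_left_cancel₀ hγ2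
    calc ‖γ‖ ^ 2 * (‖val c X‖ * ‖val c (eta θ / X)‖)
        = ‖γ‖ * ‖val c X‖ * (‖γ‖ * ‖val c (eta θ / X)‖) := by ring
      _ = _ := e7
      _ = _ := by
        rw [hγ]
        ring
  obtain ⟨k, hk⟩ := SLO L (eta θ) c Z hη0 hη1 hc hZA hgrow hprod
  refine ⟨k, ?_⟩
  rw [← hk, hZ, Fin.sum_univ_three, Fin.sum_univ_three, Multiset.map_add, Multiset.map_add,
    Multiset.sum_add, Multiset.sum_add]
  rfl

end Pool.Agent.KDD.H68
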