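import Pool.Agent.KDD.Stmts
import Pool.Agent.Helper81_SZT.NOD

/-!
# KDD, row TND: facts about a twin (copy of SZT NOD, helper81)
-/

set_option autoImplicit false

open Polynomial NumberField H58Q Pool.Agent.SZT Pool.Agent.SZT.B Pool.Agent.KDT Pool.Agent.KDS

namespace Pool.Agent.KDD.H68

open Pool.Agent.SZT.H81

theorem tnd : TndStatement := by
  intro L _ _ f θ hN
  have h2 : (2 : L) ≠ 0 := by
    intro h
    have := hN.two
    rw [h, norm_zero] at this
    exact zero_ne_one this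
  have hne : θ 0 - θ 1 ≠ 0 := sub_ne_zero.2 (fun h => absurd (hN.inj h) (by decide))
  have heta : ‖eta θ‖ = ‖θ 0 - θ 1‖ ^ 2 := by
    rw [B.eta, norm_pow, norm_div, hN.two, div_one]
  have hctr : ‖ctr θ‖ ≤ 1 := by
    rw [ctr, norm_div, hN.two, div_one]
    exact (IsUltrametricDist.norm_add_le_max _ _).trans (max_le (hN.int 0) (hN.int 1))
  have hhalf : ‖(θ 0 - θ 1) / 2‖ < 1 := by
    rw [norm_div, hN.two, div_one]
    exact hN.near
  have hc0 : θ 0 - ctr θ = (θ 0 - θ 1) / 2 := by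
    rw [ctr]
    field_simp
    ring
  have hc1 : θ 1 - ctr θ = -((θ 0 - θ 1) / 2) := by
    rw [ctr]
    field_simp
    ring
  -- the other roots
  have hfar : ∀ i : Fin 5, i ≠ 0 → i ≠ 1 → ‖θ i - ctr θ‖ = 1 := by
    intro i h0 h1
    have e : θ i - ctr θ = (θ 0 - θ 1) / 2 + (θ i - θ 0) := by
      rw [← hc0]
      ring
    rw [e]
    exact H81.norm_add_of_lt hhalf (hN.far i h0 h1)
  have hf2 := hfar 2 (by decide) (by decide)
  have hf3 := hfar 3 (by decide) (by decide)
  have hf4 := hfar 4 (by decide) (by decide)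
  have hev : ∀ z : L, ‖z‖ < 1 → ‖(hh θ).eval z‖ = 1 := by
    intro z hz
    have h1 : ∀ c : L, ‖c‖ = 1 → ‖z - c‖ = 1 := by
      intro c hc
      rw [sub_eq_add_neg]
      exact H81.norm_add_of_lt hz (by rw [norm_neg]; exact hc)
    rw [hh]
    simp only [Polynomial.eval_mul, Polynomial.eval_sub, Polynomial.eval_X, Polynomial.eval_C,
      norm_mul]
    rw [h1 _ hf2, h1 _ hf3, h1 _ hf4]
    norm_num
  have hfint : PInt f := by
    rw [hN.fac]
    exact H81.pint_prod _ _ hN.int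
  refine ⟨⟨?_, ?_, hctr⟩, ⟨?_, ?_, hev⟩, ?_, ⟨hfint, ?_, ?_⟩⟩
  · rw [B.eta]
    exact pow_ne_zero 2 (div_ne_zero hne h2)
  · rw [heta]
    exact pow_lt_one₀ (norm_nonneg _) hN.near two_ne_zero
  · rw [hh]
    exact H81.pint_mul (H81.pint_mul (H81.pint_X_sub_C hf2.le) (H81.pint_X_sub_C hf3.le))
      (H81.pint_X_sub_C hf4.le)
  · rw [Polynomial.coeff_zero_eq_eval_zero]
    exact hev 0 (by simp)
  · intro z
    rw [hN.fac, Polynomial.eval_prod, Fin.prod_univ_five, hh, B.eta]
    simp only [Polynomial.eval_mul, Polynomial.eval_sub, Polynomial.eval_X, Polynomial.eval_C]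
    have e0 : ctr θ + z - θ 0 = z - (θ 0 - θ 1) / 2 := by rw [← hc0]; ring
    have e1 : ctr θ + z - θ 1 = z + (θ 0 - θ 1) / 2 := by
      have := hc1
      linear_combination -this
    rw [e0, e1]
    ring
  · rw [hN.fac]
    exact Polynomial.monic_prod_of_monic _ _ fun i _ => Polynomial.monic_X_sub_C _
  · rw [hN.fac, Polynomial.natDegree_prod_of_monic _ _ fun i _ => Polynomial.monic_X_sub_C _]
    simp

end Pool.Agent.KDD.H68
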